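import Mathlib

set_option autoImplicit false

/-!
# The Chow groups of complex projective hypersurfaces and pencils, cones and covers: definitions

The hypersurface `X_F ⊂ P^(N-1)`, of dimension `N - 2`, is given by a homogeneous polynomial `F` in
`N` variables over `ℂ`.
-/

namespace Pool.Agent.V5helper89.HCG

open MvPolynomial

/-! ### Hypersurfaces -/

/-- The hypersurface `X_F` is smooth. -/
def IsSmooth {N : ℕ} (F : MvPolynomial (Fin N) ℂ) : Prop :=
  ∀ x : Fin N → ℂ, eval x F = 0 → (∀ i, eval x (pderiv i F) = 0) → x = 0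

/-- The hypersurface `X_F` has exactly one singular point `p`, and `p` is an ordinary double point:
the kernel of the Hessian matrix of `F` at `p` is spanned by `p`. -/
def IsNodal {N : ℕ} (F : MvPolynomial (Fin N) ℂ) : Prop :=
  ∃ p : Fin N → ℂ, p ≠ 0 ∧ eval p F = 0 ∧ (∀ i, eval p (pderiv i F) = 0) ∧
    (∀ x : Fin N → ℂ, eval x F = 0 → (∀ i, eval x (pderiv i F) = 0) → ∃ c : ℂ, x = c • p) ∧
    ∀ v : Fin N → ℂ, (∀ i, ∑ j, eval p (pderiv i (pderiv j F)) * v j = 0) → ∃ c : ℂ, v = c • p

/-- The hypersurface is smooth, or it has one ordinary double point and no other singular point. -/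
def IsMild {N : ℕ} (F : MvPolynomial (Fin N) ℂ) : Prop := IsSmooth F ∨ IsNodal F

/-- The polynomial `F (g x)`, for the linear substitution with matrix `g`. -/
noncomputable def subst {N : ℕ} (g : Matrix (Fin N) (Fin N) ℂ) (F : MvPolynomial (Fin N) ℂ) :
    MvPolynomial (Fin N) ℂ := aeval (fun i => ∑ j, C (g i j) * X j) F

/-- The section of `X_F` by the hyperplane `b x_M = a x_(M+1)` of `P^(M+1)`: the polynomial
`F (x_0, …, x_(M-1), a s, b s)` in the `M + 1` variables `x_0, …, x_(M-1), s`. -/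
noncomputable def member {M : ℕ} (F : MvPolynomial (Fin (M + 2)) ℂ) (a b : ℂ) :
    MvPolynomial (Fin (M + 1)) ℂ :=
  aeval (Fin.snoc (α := fun _ => MvPolynomial (Fin (M + 1)) ℂ)
    (Fin.snoc (α := fun _ => MvPolynomial (Fin (M + 1)) ℂ) (fun i : Fin M => X i.castSucc)
      (C a * X (Fin.last M))) (C b * X (Fin.last M))) F

/-- The homomorphism `ι : ℂ → ℂ` and the number `τ` identify the rational function field `ℂ(t)` with a
subfield of `ℂ`: `τ` is transcendental over `ι(ℂ)`. -/
def IsGeneric (ι : ℂ →+* ℂ) (τ : ℂ) : Prop := ∀ P : Polynomial ℂ, P.eval₂ ι τ = 0 → P = 0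

/-- The member of the pencil over the generic point of `P^1`, over a field containing `ℂ(t)`. -/
noncomputable def genericMember {M : ℕ} (F : MvPolynomial (Fin (M + 2)) ℂ) (ι : ℂ →+* ℂ) (τ : ℂ) :
    MvPolynomial (Fin (M + 1)) ℂ := member (F.map ι) 1 τ

/-- The sections of `X_F` by the hyperplanes `b x_M = a x_(M+1)` form a Lefschetz pencil: all members
are smooth or have one ordinary double point, and the generic member is smooth. -/
def IsLefschetzPencil {M : ℕ} (F : MvPolynomial (Fin (M + 2)) ℂ) : Prop :=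
  (∀ a b : ℂ, (a ≠ 0 ∨ b ≠ 0) → IsMild (member F a b)) ∧
    ∀ (ι : ℂ →+* ℂ) (τ : ℂ), IsGeneric ι τ → IsSmooth (genericMember F ι τ)

/-- The polynomial `F + y ^ d` with one more variable `y`. -/
noncomputable def addPower {N : ℕ} (d : ℕ) (F : MvPolynomial (Fin N) ℂ) :
    MvPolynomial (Fin (N + 1)) ℂ := rename Fin.castSucc F + X (Fin.last N) ^ d

/-- The polynomial `F + y_1 ^ d + … + y_m ^ d` with `m` more variables. -/
noncomputable def addPowers {N : ℕ} (d : ℕ) : (m : ℕ) → MvPolynomial (Fin N) ℂ →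
    MvPolynomial (Fin (N + m)) ℂ
  | 0, F => F
  | m + 1, F => addPower d (addPowers d m F)

/-! ### Chow groups -/

/-- The data: the Chow groups of the hypersurfaces with rational coefficients.

* `A F c` is the group of the cycles of codimension `c` on `X_F` modulo rational equivalence, tensored
  with `ℚ`;
* `h F c` is the class of a linear section of codimension `c`;
* `hom F c` consists of the classes with trivial class in the (Borel-Moore) homology of `X_F (ℂ)`, with
  rational coefficients;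
* `aj F c` (for smooth `X_F`) consists of the classes in `hom F c` whose Abel-Jacobi invariant is
  torsion. -/
structure ChowData where
  A : ∀ {N : ℕ}, MvPolynomial (Fin N) ℂ → ℕ → Type
  [addCommGroup : ∀ {N : ℕ} (F : MvPolynomial (Fin N) ℂ) (c : ℕ), AddCommGroup (A F c)]
  [module : ∀ {N : ℕ} (F : MvPolynomial (Fin N) ℂ) (c : ℕ), Module ℚ (A F c)]
  h : ∀ {N : ℕ} (F : MvPolynomial (Fin N) ℂ) (c : ℕ), A F c
  hom : ∀ {N : ℕ} (F : MvPolynomial (Fin N) ℂ) (c : ℕ), Submodule ℚ (A F c)
  aj : ∀ {N : ℕ} (F : MvPolynomial (Fin N) ℂ) (c : ℕ), Submodule ℚ (A F c)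

attribute [instance] ChowData.addCommGroup ChowData.module

variable (T : ChowData)

/-- `A^c(X_F) = ℚ[h^c]`. -/
def ChowData.Trivial {N : ℕ} (F : MvPolynomial (Fin N) ℂ) (c : ℕ) : Prop :=
  ∀ x : T.A F c, ∃ q : ℚ, x = q • T.h F c

/-- `A^i(X) = ℚ[h^i]` for all smooth hypersurfaces `X` of dimension `n` and degree `d`. -/
def ChowData.TrivialFor (d n i : ℕ) : Prop :=
  ∀ F : MvPolynomial (Fin (n + 2)) ℂ, F.IsHomogeneous d → IsSmooth F → T.Trivial F i

/-- Hartshorne's conjecture: `A^i(X) = ℚ[h^i]` for all smooth hypersurfaces `X` of dimension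
`n > 2 i`. -/
def ChowData.Hartshorne : Prop :=
  ∀ n d i : ℕ, 1 ≤ n → 1 ≤ d → 2 * i < n → T.TrivialFor d n i

/-- Rational and homological equivalence (with rational coefficients) agree for cycles of codimension
`i` on smooth hypersurfaces of degree `d` and dimension `2 i`. -/
def ChowData.HomInjectiveFor (d i : ℕ) : Prop :=
  ∀ F : MvPolynomial (Fin (2 * i + 2)) ℂ, F.IsHomogeneous d → IsSmooth F →
    ∀ x ∈ T.hom F i, x = 0

/-- `A^(c+r)(X) = ℚ[h^(c+r)]` for all smooth hypersurfaces `X`, of dimension `2 (c + r) + 1`, given by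
`F (x_0^e, …, x_(2c+2)^e) + y_1^(e d) + … + y_(2r)^(e d)` with `F` homogeneous of degree `d`. -/
def ChowData.SpecialTrivial (d c e r : ℕ) : Prop :=
  ∀ F : MvPolynomial (Fin (2 * c + 3)) ℂ, F.IsHomogeneous d → IsSmooth (expand e F) →
    T.Trivial (addPowers (e * d) (2 * r) (expand e F)) (c + r)

/-- Rational and homological equivalence agree for cycles of codimension `c + r` on all smooth
hypersurfaces, of dimension `2 (c + r)`, given by
`F (x_0^e, …, x_(2c+1)^e) + y_1^(e d) + … + y_(2r)^(e d)` with `F` homogeneous of degree `d`. -/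
def ChowData.SpecialHom (d c e r : ℕ) : Prop :=
  ∀ F : MvPolynomial (Fin (2 * c + 2)) ℂ, F.IsHomogeneous d → IsSmooth (expand e F) →
    ∀ x ∈ T.hom (addPowers (e * d) (2 * r) (expand e F)) (c + r), x = 0

/-- The Abel-Jacobi map is injective modulo torsion on cycles of codimension `c + r` on all smooth
hypersurfaces, of dimension `2 (c + r) - 1`, given by
`F (x_0^e, …, x_(2c)^e) + y_1^(e d) + … + y_(2r)^(e d)` with `F` homogeneous of degree `d`. -/
def ChowData.SpecialAbelJacobi (d c e r : ℕ) : Prop :=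
  ∀ F : MvPolynomial (Fin (2 * c + 1)) ℂ, F.IsHomogeneous d → IsSmooth (expand e F) →
    ∀ x ∈ T.aj (addPowers (e * d) (2 * r) (expand e F)) (c + r), x = 0

/-- The maps given by a pencil of hyperplane sections of `X_F`, after the change of coordinates which
replaces `F` by `F₁`: the restriction `gen` to the generic member, over a field containing `ℂ(t)`, and
the push-forward `inc` from the other members. The kernel of `gen` is generated by the images of
`inc`. -/
structure PencilMaps {M : ℕ} (F F₁ : MvPolynomial (Fin (M + 2)) ℂ) (ι : ℂ →+* ℂ) (τ : ℂ) where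
  gen : ∀ c, T.A F c →ₗ[ℚ] T.A (genericMember F₁ ι τ) c
  inc : ∀ a b : ℂ, (a ≠ 0 ∨ b ≠ 0) → ∀ c, T.A (member F₁ a b) c →ₗ[ℚ] T.A F (c + 1)
  gen_h : ∀ c, gen c (T.h F c) = T.h (genericMember F₁ ι τ) c
  inc_h : ∀ (a b : ℂ) (hab : a ≠ 0 ∨ b ≠ 0) (c : ℕ),
    inc a b hab c (T.h (member F₁ a b) c) = T.h F (c + 1)
  exact : ∀ (c : ℕ) (x : T.A F (c + 1)), gen (c + 1) x = 0 →
    x ∈ Submodule.span ℚ {y | ∃ (a b : ℂ) (hab : a ≠ 0 ∨ b ≠ 0) (z : T.A (member F₁ a b) c),
      y = inc a b hab c z}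
  gen_hom : ∀ (c : ℕ), ∀ x ∈ T.hom F c, gen c x ∈ T.hom (genericMember F₁ ι τ) c

/-- The maps given by the cones over the cycles on `X_F` in the hypersurface
`X' = {F(x) + y_1^d + y_2^d = 0}`, with the vertex `x = 0, y_1 = ε y_2`, `ε^d = -1`: the map `cone`,
and the transpose `proj` of the corresponding map for another root `ε'`. -/
structure ConeMaps {N : ℕ} (F : MvPolynomial (Fin N) ℂ) (F' : MvPolynomial (Fin (N + 1 + 1)) ℂ)
    (c : ℕ) where
  cone : T.A F c →ₗ[ℚ] T.A F' (c + 1)
  proj : T.A F' (c + 1) →ₗ[ℚ] T.A F c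
  proj_cone : ∀ x, proj (cone x) = x
  proj_h : proj (T.h F' (c + 1)) = T.h F c
  cone_hom : ∀ x ∈ T.hom F c, cone x ∈ T.hom F' (c + 1)
  cone_aj : ∀ x ∈ T.aj F c, cone x ∈ T.aj F' (c + 1)

/-- The pull-back and the push-forward for a finite morphism `X_G → X_F` of degree `m` of
hypersurfaces. -/
structure CoverMaps {N : ℕ} (F G : MvPolynomial (Fin N) ℂ) (m c : ℕ) where
  pull : T.A F c →ₗ[ℚ] T.A G c
  push : T.A G c →ₗ[ℚ] T.A F c
  push_pull : ∀ x, push (pull x) = (m : ℚ) • x
  push_h : ∃ q : ℚ, push (T.h G c) = q • T.h F c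
  pull_hom : ∀ x ∈ T.hom F c, pull x ∈ T.hom G c
  pull_aj : ∀ x ∈ T.aj F c, pull x ∈ T.aj G c

/-- The published facts on Chow groups and homology which are used. -/
structure ChowFacts : Prop where
  /-- The hypersurfaces in question are irreducible: smooth hypersurfaces of positive dimension, and
  hypersurfaces of dimension at least two, or plane curves of degree at least three, with one ordinary
  double point. -/
  irreducible : ∀ (d N : ℕ) (F : MvPolynomial (Fin N) ℂ), 1 ≤ d → F.IsHomogeneous d →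
    (IsSmooth F ∧ 3 ≤ N ∨ IsNodal F ∧ (4 ≤ N ∨ N = 3 ∧ 3 ≤ d)) → T.Trivial F 0
  /-- Divisors: `Pic^0 = 0` for smooth hypersurfaces of dimension at least two. -/
  divisors : ∀ (d N : ℕ) (F : MvPolynomial (Fin N) ℂ), 1 ≤ d → 4 ≤ N → F.IsHomogeneous d →
    IsSmooth F → ∀ x ∈ T.hom F 1, x = 0
  /-- Pencils: the localization sequence, the injectivity of the restriction from the field `ℂ(t)` to
  its extensions, the compatibility with homology, and, for smooth hypersurfaces of dimension `2 c`,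
  the vanishing of the intermediate Jacobian `J^c`. -/
  pencil : ∀ (d M : ℕ) (F : MvPolynomial (Fin (M + 2)) ℂ) (g : Matrix (Fin (M + 2)) (Fin (M + 2)) ℂ),
    1 ≤ d → 2 ≤ M → F.IsHomogeneous d → IsMild F → IsUnit g.det → IsLefschetzPencil (subst g F) →
    ∀ (ι : ℂ →+* ℂ) (τ : ℂ), IsGeneric ι τ → ∃ P : PencilMaps T F (subst g F) ι τ,
      ∀ c : ℕ, IsSmooth F → M = 2 * c → ∀ x ∈ T.hom F c,
        P.gen c x ∈ T.aj (genericMember (subst g F) ι τ) c
  /-- Cones. -/
  cone : ∀ (d N : ℕ) (F : MvPolynomial (Fin N) ℂ) (c : ℕ), 2 ≤ d → 2 ≤ N → F.IsHomogeneous d →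
    IsSmooth F → Nonempty (ConeMaps T F (addPower d (addPower d F)) c)
  /-- The covers `x ↦ g (x_0^e, …, x_(N-1)^e)`. -/
  cover : ∀ (d e N : ℕ) (F : MvPolynomial (Fin N) ℂ) (g : Matrix (Fin N) (Fin N) ℂ) (c : ℕ),
    1 ≤ d → 1 ≤ e → 2 ≤ N → F.IsHomogeneous d → IsSmooth F → IsUnit g.det →
    IsSmooth (expand e (subst g F)) → Nonempty (CoverMaps T F (expand e (subst g F)) (e ^ (N - 1)) c)
  /-- The class `h^c` on a smooth hypersurface of dimension `2 c` is not homologically trivial. -/
  not_hom : ∀ (d c : ℕ) (F : MvPolynomial (Fin (2 * c + 2)) ℂ) (q : ℚ), 1 ≤ d →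
    F.IsHomogeneous d → IsSmooth F → q • T.h F c ∈ T.hom F c → q = 0
  /-- The homology of hypersurfaces of dimension `2 c + 1`, smooth or (for `d ≥ 3`) with one ordinary
  double point, in degree `2 c + 2`, is generated by the class of a linear section. -/
  homology : ∀ (d c : ℕ) (F : MvPolynomial (Fin (2 * c + 3)) ℂ), 1 ≤ d → F.IsHomogeneous d →
    (IsSmooth F ∨ 3 ≤ d ∧ IsNodal F) → ∀ x : T.A F c, ∃ q : ℚ, x - q • T.h F c ∈ T.hom F c

/-- Existence of Lefschetz pencils: every hypersurface of dimension at least two which is smooth or has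
one ordinary double point and no other singular point has, in suitable coordinates, a Lefschetz
pencil. -/
def LefschetzPencilsExist : Prop :=
  ∀ (d M : ℕ) (F : MvPolynomial (Fin (M + 2)) ℂ), 1 ≤ d → 2 ≤ M → F.IsHomogeneous d → IsMild F →
    ∃ g : Matrix (Fin (M + 2)) (Fin (M + 2)) ℂ, IsUnit g.det ∧ IsLefschetzPencil (subst g F)

/-- Bertini's theorem: in suitable coordinates a smooth hypersurface is transversal to all coordinate
subspaces, so that the hypersurface given by `F (x_0^e, …, x_(N-1)^e)` is smooth. -/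
def SmoothCoversExist : Prop :=
  ∀ (d e N : ℕ) (F : MvPolynomial (Fin N) ℂ), 1 ≤ d → 1 ≤ e → 2 ≤ N → F.IsHomogeneous d →
    IsSmooth F → ∃ g : Matrix (Fin N) (Fin N) ℂ, IsUnit g.det ∧ IsSmooth (expand e (subst g F))

end Pool.Agent.V5helper89.HCG
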