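import Pool.Agent.V5helper89.HCG.Poly

set_option autoImplicit false

namespace Pool.Agent.V5helper89.HCG

open MvPolynomial

variable {T : ChowData}

/-- `A^c = ℚ[h^c]` for smooth hypersurfaces of degree `d` in `N` variables. -/
def Sm (T : ChowData) (d N c : ℕ) : Prop :=
  ∀ F : MvPolynomial (Fin N) ℂ, F.IsHomogeneous d → IsSmooth F → T.Trivial F c

/-- `A^c = ℚ[h^c]` for hypersurfaces of degree `d` in `N` variables with one node. -/
def Nod (T : ChowData) (d N c : ℕ) : Prop :=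
  ∀ F : MvPolynomial (Fin N) ℂ, F.IsHomogeneous d → IsNodal F → T.Trivial F c

/-- Rational and homological equivalence agree, `N` variables. -/
def Hm (T : ChowData) (d N c : ℕ) : Prop :=
  ∀ F : MvPolynomial (Fin N) ℂ, F.IsHomogeneous d → IsSmooth F → ∀ x ∈ T.hom F c, x = 0

/-- The Abel-Jacobi map is injective, `N` variables. -/
def Aj (T : ChowData) (d N c : ℕ) : Prop :=
  ∀ F : MvPolynomial (Fin N) ℂ, F.IsHomogeneous d → IsSmooth F → ∀ x ∈ T.aj F c, x = 0

theorem span_trivial {M c : ℕ} {F F₁ : MvPolynomial (Fin (M + 2)) ℂ} {ι : ℂ →+* ℂ} {τ : ℂ}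
    (P : PencilMaps T F F₁ ι τ)
    (h : ∀ a b : ℂ, (a ≠ 0 ∨ b ≠ 0) → T.Trivial (member F₁ a b) c) (x : T.A F (c + 1))
    (hx : P.gen (c + 1) x = 0) : ∃ q : ℚ, x = q • T.h F (c + 1) := by
  have h1 := P.exact c x hx
  have h2 : Submodule.span ℚ {y | ∃ (a b : ℂ) (hab : a ≠ 0 ∨ b ≠ 0)
      (z : T.A (member F₁ a b) c), y = P.inc a b hab c z} ≤
      Submodule.span ℚ {T.h F (c + 1)} := by
    rw [Submodule.span_le]
    rintro y ⟨a, b, hab, z, rfl⟩
    obtain ⟨q, rfl⟩ := h a b hab z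
    rw [map_smul, P.inc_h]
    exact Submodule.smul_mem _ _ (Submodule.mem_span_singleton_self _)
  obtain ⟨q, hq⟩ := Submodule.mem_span_singleton.1 (h2 h1)
  exact ⟨q, hq.symm⟩

/-- What is used of a Lefschetz pencil. -/
theorem exists_pencil (hT : ChowFacts T) (hL : LefschetzPencilsExist) {d M : ℕ}
    {F : MvPolynomial (Fin (M + 2)) ℂ} (hd : 1 ≤ d) (hM : 2 ≤ M) (hF : F.IsHomogeneous d)
    (hm : IsMild F) : ∃ (G : MvPolynomial (Fin (M + 1)) ℂ) (gen : ∀ c, T.A F c →ₗ[ℚ] T.A G c),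
      G.IsHomogeneous d ∧ IsSmooth G ∧ (∀ c, gen c (T.h F c) = T.h G c) ∧
      (∀ c, ∀ x ∈ T.hom F c, gen c x ∈ T.hom G c) ∧
      (∀ c, IsSmooth F → M = 2 * c → ∀ x ∈ T.hom F c, gen c x ∈ T.aj G c) ∧
      ∀ c, Sm T d (M + 1) c → Nod T d (M + 1) c → ∀ x : T.A F (c + 1), gen (c + 1) x = 0 →
        ∃ q : ℚ, x = q • T.h F (c + 1) := by
  obtain ⟨g, hg, hp⟩ := hL d M F hd hM hF hm
  obtain ⟨ι, τ, hgen⟩ := exists_isGeneric
  obtain ⟨P, hP⟩ := hT.pencil d M F g hd hM hF hm hg hp ι τ hgen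
  refine ⟨genericMember (subst g F) ι τ, P.gen, genericMember_hom (subst_hom hF g) ι τ,
    hp.2 ι τ hgen, P.gen_h, P.gen_hom, hP, fun c hs hn x hx => ?_⟩
  refine span_trivial P (fun a b hab => ?_) x hx
  rcases hp.1 a b hab with h | h
  · exact hs _ (member_hom (subst_hom hF g) a b) h
  · exact hn _ (member_hom (subst_hom hF g) a b) h

/-- The basic step. -/
theorem step (hT : ChowFacts T) (hL : LefschetzPencilsExist) {d M c : ℕ}
    {F : MvPolynomial (Fin (M + 2)) ℂ} (hd : 1 ≤ d) (hM : 2 ≤ M) (hF : F.IsHomogeneous d)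
    (hm : IsMild F) (h1 : Sm T d (M + 1) (c + 1)) (h2 : Sm T d (M + 1) c)
    (h3 : Nod T d (M + 1) c) : T.Trivial F (c + 1) := by
  obtain ⟨G, gen, hG, hGs, hh, -, -, hk⟩ := exists_pencil hT hL hd hM hF hm
  intro x
  obtain ⟨q, hq⟩ := h1 G hG hGs (gen (c + 1) x)
  obtain ⟨q', hq'⟩ := hk c h2 h3 (x - q • T.h F (c + 1)) (by
    rw [map_sub, map_smul, hh, hq, sub_self])
  refine ⟨q' + q, ?_⟩
  rw [add_smul, ← hq', sub_add_cancel]

/-- The basic step for homologically trivial cycles. -/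
theorem step_hom (hT : ChowFacts T) (hL : LefschetzPencilsExist) {d M c : ℕ}
    {F : MvPolynomial (Fin (M + 2)) ℂ} (hd : 1 ≤ d) (hM : 2 ≤ M) (hF : F.IsHomogeneous d)
    (hm : IsMild F) (h0 : ∀ x : T.A F (c + 1), ∃ q : ℚ, x - q • T.h F (c + 1) ∈ T.hom F (c + 1))
    (h1 : Hm T d (M + 1) (c + 1)) (h2 : Sm T d (M + 1) c)
    (h3 : Nod T d (M + 1) c) : T.Trivial F (c + 1) := by
  obtain ⟨G, gen, hG, hGs, hh, hgh, -, hk⟩ := exists_pencil hT hL hd hM hF hm
  intro x
  obtain ⟨q, hq⟩ := h0 x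
  obtain ⟨q', hq'⟩ := hk c h2 h3 (x - q • T.h F (c + 1)) (h1 G hG hGs _ (hgh _ _ hq))
  refine ⟨q' + q, ?_⟩
  rw [add_smul, ← hq', sub_add_cancel]

/-- **Pencils.** The critical case implies all cases. -/
theorem all_of_critical (hT : ChowFacts T) (hL : LefschetzPencilsExist) {d i : ℕ} (hd : 1 ≤ d)
    (h : ∀ c ≤ i, Sm T d (2 * c + 3) c) : ∀ c ≤ i, (∀ N, 2 * c + 3 ≤ N → Sm T d N c) ∧
      ∀ N, 2 * c + 4 ≤ N → Nod T d N c := by
  intro c
  induction c with
  | zero =>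
    intro _
    exact ⟨fun N hN F hF hs => hT.irreducible d N F hd hF (Or.inl ⟨hs, by omega⟩),
      fun N hN F hF hs => hT.irreducible d N F hd hF (Or.inr ⟨hs, Or.inl (by omega)⟩)⟩
  | succ c ih =>
    intro hc
    obtain ⟨ih1, ih2⟩ := ih (by omega)
    have hs : ∀ N, 2 * (c + 1) + 3 ≤ N → Sm T d N (c + 1) := by
      intro N hN
      induction N, hN using Nat.le_induction with
      | base => exact h (c + 1) hc
      | succ N hN ih =>
        obtain ⟨M, rfl⟩ : ∃ M, N = M + 1 := ⟨N - 1, by omega⟩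
        intro F hF hs
        exact step hT hL hd (by omega) hF (Or.inl hs) ih (ih1 _ (by omega)) (ih2 _ (by omega))
    refine ⟨hs, fun N hN => ?_⟩
    obtain ⟨M, rfl⟩ : ∃ M, N = M + 2 := ⟨N - 2, by omega⟩
    intro F hF hn
    exact step hT hL hd (by omega) hF (Or.inr hn) (hs _ (by omega)) (ih1 _ (by omega))
      (ih2 _ (by omega))

/-! ### Cones -/

theorem addPowers_hom {N d : ℕ} {F : MvPolynomial (Fin N) ℂ} (hF : F.IsHomogeneous d) :
    ∀ m, (addPowers d m F).IsHomogeneous d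
  | 0 => hF
  | m + 1 => addPower_hom (addPowers_hom hF m)

theorem addPowers_smooth {N d : ℕ} {F : MvPolynomial (Fin N) ℂ} (hd : 2 ≤ d) (hF : IsSmooth F) :
    ∀ m, IsSmooth (addPowers d m F)
  | 0 => hF
  | m + 1 => addPower_smooth hd (addPowers_smooth hd hF m)

theorem trivial_of_cones (hT : ChowFacts T) {d N c : ℕ} (hd : 2 ≤ d) (hN : 2 ≤ N)
    {F : MvPolynomial (Fin N) ℂ} (hF : F.IsHomogeneous d) (hs : IsSmooth F) (r : ℕ)
    (h : T.Trivial (addPowers d (2 * r) F) (c + r)) : T.Trivial F c := by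
  induction r with
  | zero => exact h
  | succ r ih =>
    apply ih
    intro x
    obtain ⟨P⟩ := hT.cone d _ (addPowers d (2 * r) F) (c + r) hd (by omega)
      (addPowers_hom hF _) (addPowers_smooth hd hs _)
    obtain ⟨q, hq⟩ := h (P.cone x)
    refine ⟨q, ?_⟩
    have h1 : P.cone x = q • T.h (addPower d (addPower d (addPowers d (2 * r) F))) (c + r + 1) := hq
    rw [← P.proj_cone x, h1, map_smul, P.proj_h]

theorem hom_of_cones (hT : ChowFacts T) {d N c : ℕ} (hd : 2 ≤ d) (hN : 2 ≤ N)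
    {F : MvPolynomial (Fin N) ℂ} (hF : F.IsHomogeneous d) (hs : IsSmooth F) (r : ℕ)
    (h : ∀ x ∈ T.hom (addPowers d (2 * r) F) (c + r), x = 0) : ∀ x ∈ T.hom F c, x = 0 := by
  induction r with
  | zero => exact h
  | succ r ih =>
    apply ih
    intro x hx
    obtain ⟨P⟩ := hT.cone d _ (addPowers d (2 * r) F) (c + r) hd (by omega)
      (addPowers_hom hF _) (addPowers_smooth hd hs _)
    have h1 : P.cone x = 0 := h (P.cone x) (P.cone_hom x hx)
    rw [← P.proj_cone x, h1, map_zero]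

theorem aj_of_cones (hT : ChowFacts T) {d N c : ℕ} (hd : 2 ≤ d) (hN : 2 ≤ N)
    {F : MvPolynomial (Fin N) ℂ} (hF : F.IsHomogeneous d) (hs : IsSmooth F) (r : ℕ)
    (h : ∀ x ∈ T.aj (addPowers d (2 * r) F) (c + r), x = 0) : ∀ x ∈ T.aj F c, x = 0 := by
  induction r with
  | zero => exact h
  | succ r ih =>
    apply ih
    intro x hx
    obtain ⟨P⟩ := hT.cone d _ (addPowers d (2 * r) F) (c + r) hd (by omega)
      (addPowers_hom hF _) (addPowers_smooth hd hs _)
    have h1 : P.cone x = 0 := h (P.cone x) (P.cone_aj x hx)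
    rw [← P.proj_cone x, h1, map_zero]

/-! ### Covers -/

theorem deg_ne {e N : ℕ} (he : 1 ≤ e) : ((e ^ (N - 1) : ℕ) : ℚ) ≠ 0 := by
  have : e ^ (N - 1) ≠ 0 := pow_ne_zero _ (by omega)
  exact_mod_cast this

theorem trivial_of_cover {N m c : ℕ} {F G : MvPolynomial (Fin N) ℂ} (P : CoverMaps T F G m c)
    (hm : (m : ℚ) ≠ 0) (h : T.Trivial G c) : T.Trivial F c := by
  intro x
  obtain ⟨q, hq⟩ := h (P.pull x)
  obtain ⟨q', hq'⟩ := P.push_h
  refine ⟨(m : ℚ)⁻¹ * (q * q'), ?_⟩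
  have h1 := P.push_pull x
  rw [hq, map_smul, hq', smul_smul] at h1
  rw [mul_smul, h1, smul_smul, inv_mul_cancel₀ hm, one_smul]

theorem zero_of_pull {N m c : ℕ} {F G : MvPolynomial (Fin N) ℂ} (P : CoverMaps T F G m c)
    (hm : (m : ℚ) ≠ 0) {x : T.A F c} (h : P.pull x = 0) : x = 0 := by
  have h1 := P.push_pull x
  rw [h, map_zero] at h1
  exact (smul_eq_zero.1 h1.symm).resolve_left hm

/-- The critical case from the special hypersurfaces. -/
theorem sm_of_special (hT : ChowFacts T) (hB : SmoothCoversExist) {d c e r : ℕ} (hd : 1 ≤ d)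
    (he : 1 ≤ e) (hed : 2 ≤ e * d) (h : T.SpecialTrivial d c e r) : Sm T d (2 * c + 3) c := by
  intro F hF hs
  obtain ⟨g, hg, hG⟩ := hB d e _ F hd he (by omega) hF hs
  obtain ⟨P⟩ := hT.cover d e _ F g c hd he (by omega) hF hs hg hG
  exact trivial_of_cover P (deg_ne he) (trivial_of_cones hT hed (by omega)
    (expand_hom (subst_hom hF g) e) hG r (h _ (subst_hom hF g) hG))

theorem hm_of_special (hT : ChowFacts T) (hB : SmoothCoversExist) {d c e r : ℕ} (hd : 1 ≤ d)
    (he : 1 ≤ e) (hed : 2 ≤ e * d) (h : T.SpecialHom d c e r) : Hm T d (2 * c + 2) c := by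
  intro F hF hs x hx
  obtain ⟨g, hg, hG⟩ := hB d e _ F hd he (by omega) hF hs
  obtain ⟨P⟩ := hT.cover d e _ F g c hd he (by omega) hF hs hg hG
  exact zero_of_pull P (deg_ne he) (hom_of_cones hT hed (by omega)
    (expand_hom (subst_hom hF g) e) hG r (h _ (subst_hom hF g) hG) _ (P.pull_hom x hx))

theorem aj_of_special (hT : ChowFacts T) (hB : SmoothCoversExist) {d c e r : ℕ} (hd : 1 ≤ d)
    (he : 1 ≤ e) (hed : 2 ≤ e * d) (hc : 1 ≤ c) (h : T.SpecialAbelJacobi d c e r) :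
    Aj T d (2 * c + 1) c := by
  intro F hF hs x hx
  obtain ⟨g, hg, hG⟩ := hB d e _ F hd he (by omega) hF hs
  obtain ⟨P⟩ := hT.cover d e _ F g c hd he (by omega) hF hs hg hG
  exact zero_of_pull P (deg_ne he) (aj_of_cones hT hed (by omega)
    (expand_hom (subst_hom hF g) e) hG r (h _ (subst_hom hF g) hG) _ (P.pull_aj x hx))

theorem sm_of_cover (hT : ChowFacts T) (hB : SmoothCoversExist) {d e N c : ℕ} (hd : 1 ≤ d)
    (he : 1 ≤ e) (hN : 2 ≤ N) (h : Sm T (e * d) N c) : Sm T d N c := by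
  intro F hF hs
  obtain ⟨g, hg, hG⟩ := hB d e N F hd he hN hF hs
  obtain ⟨P⟩ := hT.cover d e N F g c hd he hN hF hs hg hG
  exact trivial_of_cover P (deg_ne he) (h _ (expand_hom (subst_hom hF g) e) hG)

/-! ### The three critical dimensions -/

theorem hm_one (hT : ChowFacts T) {d : ℕ} (hd : 1 ≤ d) : Hm T d 4 1 :=
  fun F hF hs => hT.divisors d 4 F hd le_rfl hF hs

/-- Divisors. -/
theorem sm_one (hT : ChowFacts T) {d : ℕ} (hd : 1 ≤ d) : Sm T d 5 1 := by
  intro F hF hs x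
  obtain ⟨q, hq⟩ := hT.homology d 1 F hd hF (Or.inl hs) x
  exact ⟨q, sub_eq_zero.1 (hT.divisors d 5 F hd (by omega) hF hs _ hq)⟩

/-- The critical cases from the critical cases or from homologically trivial cycles in the middle
dimension. -/
theorem sm_of_mixed (hT : ChowFacts T) (hL : LefschetzPencilsExist) {d : ℕ} (hd : 1 ≤ d) (i : ℕ)
    (h : ∀ c, 2 ≤ c → c ≤ i → Sm T d (2 * c + 3) c ∨ Hm T d (2 * c + 2) c) :
    ∀ c ≤ i, Sm T d (2 * c + 3) c := by
  induction i with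
  | zero =>
    intro c hc
    obtain rfl : c = 0 := by omega
    exact fun F hF hs => hT.irreducible d _ F hd hF (Or.inl ⟨hs, by omega⟩)
  | succ i ih =>
    have ih' := ih (fun c h1 h2 => h c h1 (by omega))
    intro c hc
    rcases Nat.lt_or_ge c (i + 1) with hlt | hge
    · exact ih' c (by omega)
    · obtain rfl : c = i + 1 := by omega
      rcases Nat.eq_zero_or_pos i with rfl | hi
      · exact sm_one hT hd
      · rcases h (i + 1) (by omega) le_rfl with h4 | h4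
        · exact h4
        · obtain ⟨h1, h2⟩ := all_of_critical hT hL hd ih' i le_rfl
          intro F hF hs
          exact step_hom hT hL (M := 2 * i + 3) hd (by omega) hF (Or.inl hs)
            (fun x => hT.homology d (i + 1) F hd hF (Or.inl hs) x) h4 (h1 _ (by omega))
            (h2 _ (by omega))

/-- The nodal case in dimension `2 c + 1`. -/
theorem nod_of_hm (hT : ChowFacts T) (hL : LefschetzPencilsExist) {d : ℕ} (hd : 3 ≤ d) (c : ℕ)
    (h : ∀ j, 1 ≤ j → j ≤ c → Hm T d (2 * j + 2) j) : Nod T d (2 * c + 3) c := by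
  rcases c with _ | c
  · exact fun F hF hn => hT.irreducible d _ F (by omega) hF (Or.inr ⟨hn, Or.inr ⟨rfl, hd⟩⟩)
  · have h0 := sm_of_mixed hT hL (d := d) (by omega) c
      (fun j h1 h2 => Or.inr (h j (by omega) (by omega)))
    obtain ⟨h1, h2⟩ := all_of_critical hT hL (by omega) h0 c le_rfl
    intro F hF hn
    exact step_hom hT hL (M := 2 * c + 3) (by omega) (by omega) hF (Or.inr hn)
      (fun x => hT.homology d (c + 1) F (by omega) hF (Or.inr ⟨hd, hn⟩) x)
      (h (c + 1) (by omega) le_rfl) (h1 _ (by omega)) (h2 _ (by omega))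

/-- Homologically trivial cycles in the middle dimension from the Abel-Jacobi map. -/
theorem hm_of_mixed (hT : ChowFacts T) (hL : LefschetzPencilsExist) {d : ℕ} (hd : 3 ≤ d) (i : ℕ)
    (h : ∀ c, 2 ≤ c → c ≤ i → Hm T d (2 * c + 2) c ∨ Aj T d (2 * c + 1) c) :
    ∀ c, 1 ≤ c → c ≤ i → Hm T d (2 * c + 2) c := by
  induction i with
  | zero => intro c h1 h2; omega
  | succ i ih =>
    have ih' := ih (fun c h1 h2 => h c h1 (by omega))
    intro c hc1 hc
    rcases Nat.lt_or_ge c (i + 1) with hlt | hge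
    · exact ih' c hc1 (by omega)
    · obtain rfl : c = i + 1 := by omega
      rcases Nat.eq_zero_or_pos i with rfl | hi
      · exact hm_one hT (by omega)
      · rcases h (i + 1) (by omega) le_rfl with h4 | h4
        · exact h4
        · have h1 := sm_of_mixed hT hL (d := d) (by omega) i
            (fun j h1 h2 => Or.inr (ih' j (by omega) h2)) i le_rfl
          have h2 := nod_of_hm hT hL hd i ih'
          intro F hF hs x hx
          obtain ⟨G, gen, hG, hGs, hh, -, hga, hk⟩ := exists_pencil hT hL (M := 2 * (i + 1))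
            (by omega : 1 ≤ d) (by omega) hF (Or.inl hs)
          obtain ⟨q, hq⟩ := hk i h1 h2 x (h4 G hG hGs _ (hga (i + 1) hs rfl x hx))
          have h3 : q = 0 := hT.not_hom d (i + 1) F q (by omega) hF hs (hq ▸ hx)
          rw [hq, h3, zero_smul]

/-- All cases from the critical cases. -/
theorem all_of_mixed (hT : ChowFacts T) (hL : LefschetzPencilsExist) {d i : ℕ} (hd : 1 ≤ d)
    (h : ∀ c, 2 ≤ c → c ≤ i → Sm T d (2 * c + 3) c ∨ Hm T d (2 * c + 2) c) :
    ∀ c n, c ≤ i → 2 * c < n → T.TrivialFor d n c :=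
  fun c n hc hn => (all_of_critical hT hL hd (sm_of_mixed hT hL hd i h) c hc).1 (n + 2) (by omega)

/-! ### The results -/

theorem main_special (hT : ChowFacts T) (hL : LefschetzPencilsExist) (hB : SmoothCoversExist)
    {d i : ℕ} (hd : 1 ≤ d) (h : ∀ c, 2 ≤ c → c ≤ i → ∃ e r, 1 ≤ e ∧ 2 ≤ e * d ∧
      (T.SpecialTrivial d c e r ∨ T.SpecialHom d c e r)) :
    ∀ c n, c ≤ i → 2 * c < n → T.TrivialFor d n c := by
  refine all_of_mixed hT hL hd (fun c h1 h2 => ?_)
  obtain ⟨e, r, he, hed, h3⟩ := h c h1 h2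
  exact h3.imp (sm_of_special hT hB hd he hed) (hm_of_special hT hB hd he hed)

theorem main_abel_jacobi (hT : ChowFacts T) (hL : LefschetzPencilsExist)
    (hB : SmoothCoversExist) {d i : ℕ} (hd : 3 ≤ d) (h : ∀ c, 2 ≤ c → c ≤ i → ∃ e r, 1 ≤ e ∧
      (T.SpecialHom d c e r ∨ T.SpecialAbelJacobi d c e r)) :
    ∀ c, 1 ≤ c → c ≤ i → T.HomInjectiveFor d c := by
  refine hm_of_mixed hT hL hd i (fun c h1 h2 => ?_)
  obtain ⟨e, r, he, h3⟩ := h c h1 h2
  have hed : 2 ≤ e * d := by nlinarith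
  exact h3.imp (hm_of_special hT hB (by omega) he hed)
    (aj_of_special hT hB (by omega) he hed (by omega))

theorem main_critical (hT : ChowFacts T) (hL : LefschetzPencilsExist) (hB : SmoothCoversExist)
    {d' i' : ℕ} (hd' : 2 ≤ d') (h : T.TrivialFor d' (2 * i' + 1) i') {d n i : ℕ} (hdd : d ∣ d')
    (hi : i ≤ i') (hn : 2 * i < n) : T.TrivialFor d n i := by
  have h0 : ∀ c ≤ i', Sm T d' (2 * c + 3) c := by
    intro c hc F hF hs
    apply trivial_of_cones hT hd' (by omega) hF hs (i' - c)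
    have h1 : ∀ (N j : ℕ), N = 2 * i' + 3 → j = i' → Sm T d' N j := by
      rintro N j rfl rfl
      exact h
    exact h1 _ _ (by omega) (by omega) _ (addPowers_hom hF _) (addPowers_smooth hd' hs _)
  have h1 := (all_of_critical hT hL (by omega) h0 i hi).1 (n + 2) (by omega)
  obtain ⟨e, rfl⟩ := hdd
  have hd : 1 ≤ d := Nat.one_le_iff_ne_zero.2 (by rintro rfl; omega)
  have he : 1 ≤ e := Nat.one_le_iff_ne_zero.2 (by rintro rfl; omega)
  refine sm_of_cover hT hB hd he (by omega) ?_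
  rwa [mul_comm]

theorem main_iff (hT : ChowFacts T) (hL : LefschetzPencilsExist) (hB : SmoothCoversExist) :
    T.Hartshorne ↔ ∀ d c E R, 1 ≤ d → 2 ≤ c → 1 ≤ E →
      ∃ e r, 1 ≤ e ∧ E ∣ e ∧ R ≤ r ∧ T.SpecialTrivial d c e r := by
  constructor
  · intro h d c E R hd hc hE
    refine ⟨2 * E, R, by omega, ⟨2, mul_comm _ _⟩, le_rfl, fun F hF hs => ?_⟩
    have h1 : ∀ N j : ℕ, N = 2 * j + 1 + 2 → 1 ≤ j → Sm T (2 * E * d) N j := by
      rintro N j rfl hj
      exact h (2 * j + 1) _ j (by omega) (by nlinarith) (by omega)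
    exact h1 _ _ (by omega) (by omega) _ (addPowers_hom (expand_hom hF _) _)
      (addPowers_smooth (by nlinarith) hs _)
  · intro h n d i hn hd hi
    refine main_special hT hL hB hd (fun c h1 h2 => ?_) i n le_rfl hi
    obtain ⟨e, r, he, ⟨k, hk⟩, -, h3⟩ := h d c 2 0 hd h1 (by omega)
    refine ⟨e, r, he, ?_, Or.inl h3⟩
    have h4 : 2 ≤ e := by omega
    nlinarith

theorem main_hartshorne_of_abel_jacobi (hT : ChowFacts T) (hL : LefschetzPencilsExist)
    (hB : SmoothCoversExist) (h : ∀ d c, 3 ≤ d → 2 ≤ c → ∃ e r, 1 ≤ e ∧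
      (T.SpecialHom d c e r ∨ T.SpecialAbelJacobi d c e r)) : T.Hartshorne := by
  intro n d i hn hd hi
  have h1 := main_abel_jacobi hT hL hB (d := 3 * d) (i := i) (by omega)
    (fun c hc _ => h _ c (by omega) hc)
  have h2 := all_of_mixed hT hL (d := 3 * d) (i := i) (by omega)
    (fun c hc hc' => Or.inr (h1 c (by omega) hc')) i n le_rfl hi
  exact sm_of_cover hT hB hd (by omega : 1 ≤ 3) (by omega) h2

end Pool.Agent.V5helper89.HCG
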