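import Pool.Agent.V5helper89.HCG.Defs

set_option autoImplicit false

namespace Pool.Agent.V5helper89.HCG

open MvPolynomial

/-- There is a field embedding of `ℂ(t)` in `ℂ`. -/
theorem exists_isGeneric : ∃ (ι : ℂ →+* ℂ) (τ : ℂ), IsGeneric ι τ := by
  let K := FractionRing (Polynomial ℂ)
  let L := AlgebraicClosure K
  have hinf : Cardinal.aleph0 ≤ Cardinal.mk ℂ := by
    rw [Cardinal.mk_complex]; exact Cardinal.aleph0_le_continuum
  have hK : Cardinal.mk K = Cardinal.mk ℂ := by
    have h1 : Cardinal.mk K = Cardinal.mk (Polynomial ℂ) := Cardinal.mk_fractionRing _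
    rw [h1]
    apply le_antisymm
    · refine (Polynomial.cardinalMk_le_max (R := ℂ)).trans ?_
      exact max_le le_rfl hinf
    · exact Cardinal.mk_le_of_injective (f := (Polynomial.C : ℂ → Polynomial ℂ))
        Polynomial.C_injective
  have hL : Cardinal.mk L = Cardinal.mk ℂ := by
    apply le_antisymm
    · refine (Algebra.IsAlgebraic.cardinalMk_le_max K L).trans ?_
      rw [hK]
      exact max_le le_rfl hinf
    · rw [← hK]
      exact Cardinal.mk_le_of_injective (FaithfulSMul.algebraMap_injective K L)
  have hchK : CharZero K := by infer_instance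
  have hchL : CharZero L := charZero_of_injective_algebraMap (FaithfulSMul.algebraMap_injective K L)
  have hcard : Cardinal.aleph0 < Cardinal.mk L := by
    rw [hL, Cardinal.mk_complex]; exact Cardinal.aleph0_lt_continuum
  obtain ⟨ψ⟩ := IsAlgClosed.ringEquiv_of_equiv_of_charZero (K := L) (L := ℂ) hcard
    (Cardinal.eq.1 hL)
  let φ : Polynomial ℂ →+* ℂ :=
    (ψ : L →+* ℂ).comp ((algebraMap K L).comp (algebraMap (Polynomial ℂ) K))
  have hφ : Function.Injective φ := by
    intro x y hxy
    exact IsFractionRing.injective (Polynomial ℂ) K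
      (FaithfulSMul.algebraMap_injective K L (ψ.injective hxy))
  refine ⟨φ.comp Polynomial.C, φ Polynomial.X, fun P hP => ?_⟩
  have h : φ P = P.eval₂ (φ.comp Polynomial.C) (φ Polynomial.X) := by
    rw [Polynomial.eval₂_eq_sum]
    conv_lhs => rw [← Polynomial.sum_C_mul_X_pow_eq P]
    rw [Polynomial.sum, Polynomial.sum, map_sum]
    refine Finset.sum_congr rfl fun i _ => ?_
    rw [map_mul, map_pow]
    rfl
  rw [← h] at hP
  exact hφ (by rw [hP, map_zero])

theorem subst_hom {N d : ℕ} {F : MvPolynomial (Fin N) ℂ} (hF : F.IsHomogeneous d)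
    (g : Matrix (Fin N) (Fin N) ℂ) : (subst g F).IsHomogeneous d := by
  have h := hF.aeval (fun i => ∑ j, C (g i j) * X j) (n := 1)
    (fun i => IsHomogeneous.sum _ _ _ fun j _ => isHomogeneous_C_mul_X _ _)
  rwa [one_mul] at h

theorem expand_hom {N d : ℕ} {F : MvPolynomial (Fin N) ℂ} (hF : F.IsHomogeneous d) (e : ℕ) :
    (expand e F).IsHomogeneous (e * d) :=
  hF.aeval (fun i => X i ^ e) (n := e) (fun i => isHomogeneous_X_pow _ _)

theorem member_hom {M d : ℕ} {F : MvPolynomial (Fin (M + 2)) ℂ} (hF : F.IsHomogeneous d)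
    (a b : ℂ) : (member F a b).IsHomogeneous d := by
  have h := hF.aeval (Fin.snoc (α := fun _ => MvPolynomial (Fin (M + 1)) ℂ)
    (Fin.snoc (α := fun _ => MvPolynomial (Fin (M + 1)) ℂ) (fun i : Fin M => X i.castSucc)
      (C a * X (Fin.last M))) (C b * X (Fin.last M))) (n := 1) ?_
  · rwa [one_mul] at h
  · intro i
    refine Fin.lastCases ?_ (fun i => ?_) i
    · rw [Fin.snoc_last]
      exact isHomogeneous_C_mul_X _ _
    · rw [Fin.snoc_castSucc]
      refine Fin.lastCases ?_ (fun i => ?_) i
      · rw [Fin.snoc_last]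
        exact isHomogeneous_C_mul_X _ _
      · rw [Fin.snoc_castSucc]
        exact isHomogeneous_X _ _

theorem genericMember_hom {M d : ℕ} {F : MvPolynomial (Fin (M + 2)) ℂ} (hF : F.IsHomogeneous d)
    (ι : ℂ →+* ℂ) (τ : ℂ) : (genericMember F ι τ).IsHomogeneous d :=
  member_hom (hF.map ι) _ _

theorem addPower_hom {N d : ℕ} {F : MvPolynomial (Fin N) ℂ} (hF : F.IsHomogeneous d) :
    (addPower d F).IsHomogeneous d :=
  (hF.rename_isHomogeneous).add (isHomogeneous_X_pow _ _)

theorem addPower_smooth {N d : ℕ} {F : MvPolynomial (Fin N) ℂ} (hd : 2 ≤ d) (hF : IsSmooth F) :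
    IsSmooth (addPower d F) := by
  intro x hx hx'
  have hev : ∀ G : MvPolynomial (Fin N) ℂ, eval x (rename Fin.castSucc G) =
      eval (fun i => x i.castSucc) G := by
    intro G
    rw [eval_rename]
    rfl
  have hlast : x (Fin.last N) = 0 := by
    have h := hx' (Fin.last N)
    unfold addPower at h
    rw [map_add, pderiv_pow, pderiv_X_self] at h
    rw [pderiv_eq_zero_of_notMem_vars (f := rename Fin.castSucc F)] at h
    · simp only [zero_add, mul_one, map_mul, map_pow, eval_X, map_natCast] at h
      have h2 : (d : ℂ) ≠ 0 := by exact_mod_cast (by omega : d ≠ 0)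
      have h3 := (mul_eq_zero.1 h).resolve_left h2
      exact pow_eq_zero_iff (by omega) |>.1 h3
    · intro hmem
      have h4 := vars_rename Fin.castSucc F hmem
      rw [Finset.mem_image] at h4
      obtain ⟨i, _, hi⟩ := h4
      exact absurd hi (Fin.castSucc_lt_last i).ne
  have h1 : (fun i : Fin N => x i.castSucc) = 0 := by
    apply hF
    · have h := hx
      unfold addPower at h
      rw [map_add, map_pow, eval_X, hlast, zero_pow (by omega), add_zero, hev] at h
      exact h
    · intro i
      have h := hx' i.castSucc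
      unfold addPower at h
      rw [map_add, pderiv_pow, pderiv_X_of_ne (Fin.castSucc_lt_last i).ne', mul_zero, add_zero,
        pderiv_rename (Fin.castSucc_injective N), hev] at h
      exact h
  funext i
  refine Fin.lastCases ?_ (fun i => ?_) i
  · exact hlast
  · exact congrFun h1 i

end Pool.Agent.V5helper89.HCG
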